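import Pool.Agent.H49.AF.Mul

/-!
# Arithmetic in the automorphism group of a free group

Let `n ≥ 3`.  For every arithmetical set `A` of `k`-tuples of integers and every primitive element
`p` of the free group `F_n`, the set of the `k`-tuples `(ι_(p ^ a_1), ..., ι_(p ^ a_k))`, `a ∈ A`, is
first-order definable (with parameters) in the group `Aut F_n`; so is the set of all inner
automorphisms `ι_w`, `w = β (x_(i_1) ^ a_1 ⋯ x_(i_k) ^ a_k)`, `β ∈ Aut F_n`, `a ∈ A`.
-/

set_option autoImplicit false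

open FirstOrder

namespace Pool.Agent.Results.MP_85729b_al.Arithmetic

open Pool.Agent.H16.Inn Pool.Agent.H49.AF

/-- An arithmetical set of `k`-tuples of integers: definable in the ring of the integers by a
first-order formula in the language of rings (parameters are allowed, they make no difference). -/
def Arith {k : ℕ} (A : Set (Fin k → ℤ)) : Prop :=
  letI := FirstOrder.Ring.compatibleRingOfRing ℤ
  (Set.univ : Set ℤ).Definable Language.ring A

/-- A set of `k`-tuples of elements of the group `G` is definable if it is first-order definable in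
the language of groups, with parameters from `G`. -/
def DfnTuples {G : Type} [Group G] {k : ℕ} (S : Set (Fin k → G)) : Prop :=
  (Set.univ : Set G).Definable LGrp S

/-- `p` is primitive: a member of some basis of the free group of rank `n`. -/
def Primitive {n : ℕ} (p : FreeGroup (Fin n)) : Prop :=
  ∃ (b : FreeGroupBasis (Fin n) (FreeGroup (Fin n))) (i : Fin n), b i = p

theorem exists_two {n : ℕ} (hn : 3 ≤ n) (b : Fin n) : ∃ c d : Fin n, c ≠ b ∧ d ≠ b ∧ c ≠ d := by
  have h : 2 ≤ (Finset.univ.erase b).card := by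
    rw [Finset.card_erase_of_mem (Finset.mem_univ b), Finset.card_univ, Fintype.card_fin]
    omega
  obtain ⟨c, hc, d, hd, hcd⟩ := Finset.one_lt_card.1 h
  exact ⟨c, d, (Finset.mem_erase.1 hc).1, (Finset.mem_erase.1 hd).1, hcd⟩

/-- The ring of the integers is interpreted in `Aut F_n`. -/
theorem interp_ring {n : ℕ} (hn : 3 ≤ n) (a : Fin n) :
    letI := FirstOrder.Ring.compatibleRingOfRing ℤ
    Interp Language.ring LGrp (EE a) := by
  let := FirstOrder.Ring.compatibleRingOfRing ℤ
  obtain ⟨b, l, hb, hl, hbl⟩ := exists_two hn a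
  have hran := def_range (a := a) (b := b) (exists_two hn) hb.symm
  refine ⟨EE_injective hb.symm, hran, ?_, fun k R => R.elim⟩
  intro k f
  cases f with
  | add =>
    have h : Def LGrp fun v : Fin 2 ⊕ Fin 1 → MulAut (FreeGroup (Fin n)) =>
        (v (Sum.inl 0) ∈ Set.range (EE a) ∧ v (Sum.inl 1) ∈ Set.range (EE a)) ∧
          v (Sum.inr 0) = v (Sum.inl 0) * v (Sum.inl 1) :=
      Def.and (Def.and (hran.sub1 (TF.var _)) (hran.sub1 (TF.var _)))
        (Def.eqT (TF.var _) ((TF.var _).mul (TF.var _)))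
    convert h using 2
    rename_i v
    constructor
    · rintro ⟨x, hx, hy⟩
      have h0 : v (Sum.inl 0) = EE a (x 0) := congrFun hx 0
      have h1 : v (Sum.inl 1) = EE a (x 1) := congrFun hx 1
      refine ⟨⟨⟨x 0, h0.symm⟩, ⟨x 1, h1.symm⟩⟩, ?_⟩
      rw [hy, h0, h1, ← EE_add]
      congr 1
    · rintro ⟨⟨⟨x, hx⟩, ⟨y, hy⟩⟩, hz⟩
      refine ⟨![x, y], ?_, ?_⟩
      · funext i
        fin_cases i
        · exact hx.symm
        · exact hy.symm
      · rw [hz, ← hx, ← hy, ← EE_add]
        congr 1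
  | mul =>
    have h := def_mulG (l := l) (exists_two hn) hb.symm
      (TF.var (α := Fin 2 ⊕ Fin 1) (G := MulAut (FreeGroup (Fin n))) (Sum.inl 0))
      (TF.var (Sum.inl 1)) (TF.var (Sum.inr 0))
    convert h using 2
    rename_i v
    rw [mulG_iff hb.symm hl.symm hbl]
    constructor
    · rintro ⟨x, hx, hy⟩
      refine ⟨x 0, x 1, x 0 * x 1, congrFun hx 0, congrFun hx 1, ?_, rfl⟩
      rw [hy]
      congr 1
    · rintro ⟨x, y, z, hx, hy, hz, rfl⟩
      refine ⟨![x, y], ?_, ?_⟩
      · funext i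
        fin_cases i
        · exact hx
        · exact hy
      · rw [hz]
        congr 1
  | neg =>
    have h : Def LGrp fun v : Fin 1 ⊕ Fin 1 → MulAut (FreeGroup (Fin n)) =>
        v (Sum.inl 0) ∈ Set.range (EE a) ∧ v (Sum.inr 0) = (v (Sum.inl 0))⁻¹ :=
      Def.and (hran.sub1 (TF.var _)) (Def.eqT (TF.var _) (TF.var _).inv)
    convert h using 2
    rename_i v
    constructor
    · rintro ⟨x, hx, hy⟩
      have h0 : v (Sum.inl 0) = EE a (x 0) := congrFun hx 0
      refine ⟨⟨x 0, h0.symm⟩, ?_⟩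
      rw [hy, h0, ← EE_neg]
      congr 1
    · rintro ⟨⟨x, hx⟩, hz⟩
      refine ⟨![x], ?_, ?_⟩
      · funext i
        rw [Subsingleton.elim i 0]
        exact hx.symm
      · rw [hz, ← hx, ← EE_neg]
        congr 1
  | zero =>
    have h : Def LGrp fun v : Fin 0 ⊕ Fin 1 → MulAut (FreeGroup (Fin n)) =>
        v (Sum.inr 0) = EE a 0 := Def.eqT (TF.var _) (TF.con _)
    convert h using 2
    rename_i v
    constructor
    · rintro ⟨x, -, hy⟩
      rw [hy]
      congr 1
    · intro hz
      refine ⟨default, funext fun i => i.elim0, ?_⟩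
      rw [hz]
      congr 1
  | one =>
    have h : Def LGrp fun v : Fin 0 ⊕ Fin 1 → MulAut (FreeGroup (Fin n)) =>
        v (Sum.inr 0) = EE a 1 := Def.eqT (TF.var _) (TF.con _)
    convert h using 2
    rename_i v
    constructor
    · rintro ⟨x, -, hy⟩
      rw [hy]
      congr 1
    · intro hz
      refine ⟨default, funext fun i => i.elim0, ?_⟩
      rw [hz]
      congr 1

theorem def_tuple {n : ℕ} (hn : 3 ≤ n) (a : Fin n) {k : ℕ} {A : Set (Fin k → ℤ)} (hA : Arith A) :
    Def LGrp fun v : Fin k → MulAut (FreeGroup (Fin n)) => ∃ x ∈ A, ∀ j, v j = EE a (x j) := by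
  let := FirstOrder.Ring.compatibleRingOfRing ℤ
  exact (interp_ring hn a).definable hA

/-- Every basis member is the image of a given generator. -/
theorem exists_aut {n : ℕ} (a : Fin n) {p : FreeGroup (Fin n)} (hp : Primitive p) :
    ∃ β : MulAut (FreeGroup (Fin n)), β (FreeGroup.of a) = p := by
  obtain ⟨b, i, rfl⟩ := hp
  refine ⟨(FreeGroup.freeGroupCongr (Equiv.swap a i)).trans b.repr.symm, ?_⟩
  change b.repr.symm (FreeGroup.freeGroupCongr (Equiv.swap a i) (FreeGroup.of a)) = b i
  have h : FreeGroup.freeGroupCongr (Equiv.swap a i) (FreeGroup.of a) = FreeGroup.of i := by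
    simp
  rw [h]
  rfl

theorem primitive_of {n : ℕ} (i : Fin n) : Primitive (FreeGroup.of i) :=
  ⟨FreeGroupBasis.ofRepr (MulEquiv.refl _), i, rfl⟩

theorem conj_mul {n : ℕ} (β : MulAut (FreeGroup (Fin n))) (w : FreeGroup (Fin n)) :
    β * MulAut.conj w * β⁻¹ = MulAut.conj (β w) := by
  rw [mul_conj, mul_assoc, mul_inv_cancel, mul_one]

/-- Main theorem. -/
theorem result (n : ℕ) (hn : 3 ≤ n) (k : ℕ) (A : Set (Fin k → ℤ)) (hA : Arith A) :
    (∀ p : FreeGroup (Fin n), Primitive p →
      DfnTuples {v : Fin k → MulAut (FreeGroup (Fin n)) |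
        ∃ a ∈ A, ∀ j, v j = MulAut.conj (p ^ a j)}) ∧
    (∀ i : Fin k → Fin n,
      Dfn {α : MulAut (FreeGroup (Fin n)) | ∃ β : MulAut (FreeGroup (Fin n)), ∃ a ∈ A,
        α = MulAut.conj (β (List.ofFn fun j => FreeGroup.of (i j) ^ a j).prod)}) := by
  have hx : ∃ x : Fin n, True := ⟨⟨0, by omega⟩, trivial⟩
  obtain ⟨x, -⟩ := hx
  have h := def_tuple hn x hA
  constructor
  · intro p hp
    obtain ⟨β, rfl⟩ := exists_aut x hp
    have h1 := Def.sub (α := Fin k) (f := fun j v => β⁻¹ * v j * β) h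
      fun j => ((TF.con _).mul (TF.var _)).mul (TF.con _)
    unfold DfnTuples
    unfold Def at h1
    convert h1 using 1
    ext v
    refine exists_congr fun a => and_congr Iff.rfl (forall_congr' fun j => ?_)
    have h2 : MulAut.conj (β (FreeGroup.of x) ^ a j) = β * EE x (a j) * β⁻¹ := by
      rw [EE, conj_mul, ← map_zpow]
    rw [h2]
    constructor
    · intro h3
      change β⁻¹ * v j * β = EE x (a j)
      rw [h3]
      group
    · intro h3
      rw [← h3]
      change v j = β * (β⁻¹ * v j * β) * β⁻¹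
      group
  · intro i
    have hσ : ∀ j : Fin k, ∃ σ : MulAut (FreeGroup (Fin n)),
        σ (FreeGroup.of x) = FreeGroup.of (i j) := fun j => exists_aut x (primitive_of (i j))
    choose σ hσ using hσ
    have h1 : Def LGrp fun v : Fin 1 → MulAut (FreeGroup (Fin n)) =>
        ∃ β : MulAut (FreeGroup (Fin n)), ∃ u : Fin k → MulAut (FreeGroup (Fin n)),
          (∃ a ∈ A, ∀ j, u j = EE x (a j)) ∧
          v 0 = β * (List.ofFn fun j => σ j * u j * (σ j)⁻¹).prod * β⁻¹ := by
      refine Def.ex (Def.exs (Def.and (h.comap Sum.inr) ?_))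
      have tb : TF fun v : (Fin 1 ⊕ Fin 1) ⊕ Fin k → MulAut (FreeGroup (Fin n)) =>
        v (Sum.inl (Sum.inr 0)) := TF.var _
      have t0 : TF fun v : (Fin 1 ⊕ Fin 1) ⊕ Fin k → MulAut (FreeGroup (Fin n)) =>
        v (Sum.inl (Sum.inl 0)) := TF.var _
      have tp : TF fun v : (Fin 1 ⊕ Fin 1) ⊕ Fin k → MulAut (FreeGroup (Fin n)) =>
          (List.ofFn fun j => σ j * v (Sum.inr j) * (σ j)⁻¹).prod :=
        TF.prod (f := fun j v => σ j * v (Sum.inr j) * (σ j)⁻¹) fun j =>
          ((TF.con _).mul (TF.var _)).mul (TF.con _)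
      exact Def.eqT t0 ((tb.mul tp).mul tb.inv)
    unfold Dfn Set.Definable₁
    unfold Def at h1
    convert h1 using 1
    ext v
    refine exists_congr fun β => ?_
    have h2 : ∀ a : Fin k → ℤ,
        MulAut.conj (β (List.ofFn fun j => FreeGroup.of (i j) ^ a j).prod) =
        β * (List.ofFn fun j => σ j * EE x (a j) * (σ j)⁻¹).prod * β⁻¹ := by
      intro a
      rw [← conj_mul, map_list_prod, List.map_ofFn]
      congr 4
      funext j
      rw [EE, conj_mul, map_zpow, hσ]
      rfl
    constructor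
    · rintro ⟨a, ha, hv⟩
      refine ⟨fun j => EE x (a j), ⟨a, ha, fun j => rfl⟩, ?_⟩
      rw [hv, h2]
    · rintro ⟨u, ⟨a, ha, hu⟩, hv⟩
      refine ⟨a, ha, ?_⟩
      rw [hv, h2]
      simp only [hu]

end Pool.Agent.Results.MP_85729b_al.Arithmetic
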