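import Pool.Agent.H16.InnFree
import Pool.Agent.H16.InnLogic

/-!
# Inner automorphisms given by elements of free factors

Let `n ≥ 3` and `r < n`.  For every free factor `H` of rank `r` of the free group `F_n` the group of
the inner automorphisms given by the elements of `H` is the centralizer of a finite subset of
`Aut F_n`.  For every `k` the set of the inner automorphisms given by the products of `k` elements of
`F_n`, each contained in a free factor of rank `r`, is first-order definable in `Aut F_n`.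
-/

set_option autoImplicit false

namespace Pool.Agent.Results.MP_85729b_al.FreeFactors

open Pool.Agent.H16.Inn

/-- `H` is a free factor of rank `r` of the free group of rank `n`: it is generated by `r` members
of a basis. -/
def IsFreeFactor (n r : ℕ) (H : Subgroup (FreeGroup (Fin n))) : Prop :=
  ∃ (b : FreeGroupBasis (Fin n) (FreeGroup (Fin n))) (I : Finset (Fin n)),
    I.card = r ∧ H = Subgroup.closure (b '' (I : Set (Fin n)))

/-- The elements of `F_n` that are products of `k` elements, each contained in a free factor of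
rank `r`. -/
def FactorProducts (n r k : ℕ) : Set (FreeGroup (Fin n)) :=
  {w | ∃ l : List (FreeGroup (Fin n)), l.length = k ∧
    (∀ x ∈ l, ∃ H, IsFreeFactor n r H ∧ x ∈ H) ∧ w = l.prod}

theorem exists_two {n : ℕ} (hn : 3 ≤ n) (b : Fin n) : ∃ c d : Fin n, c ≠ b ∧ d ≠ b ∧ c ≠ d := by
  have h : 2 ≤ (Finset.univ.erase b).card := by
    rw [Finset.card_erase_of_mem (Finset.mem_univ b), Finset.card_univ, Fintype.card_fin]
    omega
  obtain ⟨c, hc, d, hd, hcd⟩ := Finset.one_lt_card.1 h
  exact ⟨c, d, (Finset.mem_erase.1 hc).1, (Finset.mem_erase.1 hd).1, hcd⟩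

theorem exists_not_mem {n : ℕ} {I : Finset (Fin n)} (hI : I.card < n) : ∃ b, b ∉ I := by
  by_contra h
  push Not at h
  have h1 : I = Finset.univ := Finset.eq_univ_iff_forall.2 h
  rw [h1, Finset.card_univ, Fintype.card_fin] at hI
  omega

/-- The automorphism given by a basis. -/
theorem basis_map {n : ℕ} (b : FreeGroupBasis (Fin n) (FreeGroup (Fin n)))
    (I : Set (Fin n)) : Subgroup.closure (b '' I) =
      (HI I).map (b.repr.symm : FreeGroup (Fin n) →* FreeGroup (Fin n)) := by
  rw [HI, MonoidHom.map_closure, Set.image_image]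
  rfl

theorem conj_mul {n : ℕ} (β : MulAut (FreeGroup (Fin n))) (w : FreeGroup (Fin n)) :
    β * MulAut.conj w * β⁻¹ = MulAut.conj (β w) := by
  rw [mul_conj, mul_assoc, mul_inv_cancel, mul_one]

/-- The inner automorphisms given by a free factor are a centralizer of a finite set. -/
theorem centralizer_factor {n r : ℕ} (hn : 3 ≤ n) (hr : r < n)
    (H : Subgroup (FreeGroup (Fin n))) (hH : IsFreeFactor n r H) :
    ∃ S : Set (MulAut (FreeGroup (Fin n))), S.Finite ∧
      Subgroup.centralizer S = H.map MulAut.conj := by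
  obtain ⟨b, I, hI, rfl⟩ := hH
  set β : MulAut (FreeGroup (Fin n)) := b.repr.symm with hβ
  have h1 := centralizer_SI (exists_two hn) I (exists_not_mem (by omega))
  set S : Set (MulAut (FreeGroup (Fin n))) := ⋃ b ∈ (Finset.univ \ I : Finset (Fin n)), SS b
    with hS
  have hSf : S.Finite := by
    rw [hS]
    exact Set.Finite.biUnion (Finset.finite_toSet _) fun b _ => SS_finite b
  refine ⟨(fun s => β * s * β⁻¹) '' S, hSf.image _, ?_⟩
  ext α
  have h2 : α ∈ Subgroup.centralizer ((fun s => β * s * β⁻¹) '' S) ↔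
      β⁻¹ * α * β ∈ Subgroup.centralizer S := by
    rw [Subgroup.mem_centralizer_iff, Subgroup.mem_centralizer_iff]
    constructor
    · intro h s hs
      have h3 := h _ ⟨s, hs, rfl⟩
      have h4 := congrArg (fun z => β⁻¹ * z * β) h3
      simpa [mul_assoc] using h4
    · rintro h _ ⟨s, hs, rfl⟩
      have h3 := h s hs
      have h4 := congrArg (fun z => β * z * β⁻¹) h3
      simpa [mul_assoc] using h4
  rw [h2, h1, basis_map]
  constructor
  · rintro ⟨w, hw, h3⟩
    refine ⟨β w, ⟨w, hw, rfl⟩, ?_⟩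
    have h4 : MulAut.conj w = β⁻¹ * α * β := h3
    rw [← conj_mul, h4]
    simp [mul_assoc]
  · rintro ⟨_, ⟨w, hw, rfl⟩, rfl⟩
    refine ⟨w, hw, ?_⟩
    change MulAut.conj w = β⁻¹ * MulAut.conj (β w) * β
    rw [← conj_mul]
    simp [mul_assoc]

theorem exists_perm {n : ℕ} {I J : Finset (Fin n)} (h : I.card = J.card) :
    ∃ π : Equiv.Perm (Fin n), π '' (I : Set (Fin n)) = J := by
  classical
  obtain ⟨e⟩ : Nonempty ({x // x ∈ I} ≃ {x // x ∈ J}) := by
    rw [← Fintype.card_eq]
    simpa using h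
  refine ⟨e.extendSubtype, ?_⟩
  ext y
  constructor
  · rintro ⟨x, hx, rfl⟩
    exact e.extendSubtype_mem x hx
  · intro hy
    refine ⟨(e.symm ⟨y, hy⟩).1, (e.symm ⟨y, hy⟩).2, ?_⟩
    rw [Equiv.extendSubtype_apply_of_mem e _ (e.symm ⟨y, hy⟩).2]
    simp

theorem mem_factor_iff {n r : ℕ} {I : Finset (Fin n)} (hI : I.card = r)
    (w : FreeGroup (Fin n)) : (∃ H, IsFreeFactor n r H ∧ w ∈ H) ↔
      ∃ (β : MulAut (FreeGroup (Fin n))) (v : FreeGroup (Fin n)),
        v ∈ HI (I : Set (Fin n)) ∧ w = β v := by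
  constructor
  · rintro ⟨H, ⟨b, J, hJ, rfl⟩, hw⟩
    obtain ⟨π, hπ⟩ := exists_perm (hI.trans hJ.symm)
    rw [basis_map, ← hπ] at hw
    obtain ⟨v, hv, rfl⟩ := hw
    have h1 : HI (π '' (I : Set (Fin n))) =
        (HI (I : Set (Fin n))).map (FreeGroup.freeGroupCongr π).toMonoidHom := by
      rw [HI, HI, MonoidHom.map_closure, Set.image_image, Set.image_image]
      congr 1
    rw [h1] at hv
    obtain ⟨u, hu, rfl⟩ := hv
    exact ⟨(FreeGroup.freeGroupCongr π).trans b.repr.symm, u, hu, rfl⟩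
  · rintro ⟨β, v, hv, rfl⟩
    refine ⟨_, ⟨FreeGroupBasis.ofRepr β.symm, I, hI, rfl⟩, ?_⟩
    rw [basis_map]
    exact ⟨v, hv, rfl⟩

/-- Every element is a product of elements of free factors of rank `r ≥ 1`. -/
theorem exists_products {n r : ℕ} (hr : 1 ≤ r) (hrn : r < n) (w : FreeGroup (Fin n)) :
    ∃ k, w ∈ FactorProducts n r k := by
  have h1 : ∀ i : Fin n, ∃ H, IsFreeFactor n r H ∧ FreeGroup.of i ∈ H := by
    intro i
    obtain ⟨I, hI, -, hI'⟩ := Finset.exists_subsuperset_card_eq
      (s := {i}) (t := (Finset.univ : Finset (Fin n))) (n := r) (Finset.subset_univ _)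
      (by rw [Finset.card_singleton]; exact hr)
      (by rw [Finset.card_univ, Fintype.card_fin]; omega)
    refine ⟨_, ⟨FreeGroupBasis.ofRepr (MulEquiv.refl _), I, hI', rfl⟩, ?_⟩
    exact Subgroup.subset_closure ⟨i, hI (Finset.mem_singleton_self i), rfl⟩
  induction w using FreeGroup.induction_on with
  | C1 => exact ⟨0, [], rfl, by simp, by simp⟩
  | of i => exact ⟨1, [FreeGroup.of i], rfl, by simpa using h1 i, by simp⟩
  | inv_of i _ =>
    refine ⟨1, [(FreeGroup.of i)⁻¹], rfl, ?_, by simp⟩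
    obtain ⟨H, h2, h3⟩ := h1 i
    simpa using ⟨H, h2, h3⟩
  | mul x y hx hy =>
    obtain ⟨k, l, hl, h2, h3⟩ := hx
    obtain ⟨k', l', hl', h2', h3'⟩ := hy
    refine ⟨k + k', l ++ l', by simp [hl, hl'], ?_, by simp [h3, h3']⟩
    intro z hz
    rcases List.mem_append.1 hz with hz | hz
    · exact h2 z hz
    · exact h2' z hz

/-- Main theorem. -/
theorem result (n r : ℕ) (hn : 3 ≤ n) (hr : r < n) :
    (∀ H : Subgroup (FreeGroup (Fin n)), IsFreeFactor n r H →
      ∃ S : Set (MulAut (FreeGroup (Fin n))), S.Finite ∧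
        Subgroup.centralizer S = H.map MulAut.conj) ∧
    (∀ k : ℕ, Dfn {α : MulAut (FreeGroup (Fin n)) | ∃ w ∈ FactorProducts n r k,
      α = MulAut.conj w}) ∧
    (1 ≤ r → ∀ w : FreeGroup (Fin n), ∃ k, w ∈ FactorProducts n r k) := by
  refine ⟨centralizer_factor hn hr, fun k => ?_, fun h w => exists_products h hr w⟩
  obtain ⟨I, hI⟩ : ∃ I : Finset (Fin n), I.card = r := by
    obtain ⟨I, -, hI⟩ := Finset.exists_subset_card_eq (s := (Finset.univ : Finset (Fin n)))
      (n := r) (by rw [Finset.card_univ, Fintype.card_fin]; omega)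
    exact ⟨I, hI⟩
  have h1 := centralizer_SI (exists_two hn) I (exists_not_mem (by omega))
  have hSf : (⋃ b ∈ (Finset.univ \ I : Finset (Fin n)), SS b).Finite :=
    Set.Finite.biUnion (Finset.finite_toSet _) fun b _ => SS_finite b
  have h2 := dfn_centralizer hSf
  rw [h1] at h2
  convert h2.conj.prods k using 1
  have h3 : ∀ α : MulAut (FreeGroup (Fin n)),
      α ∈ {g | ∃ x ∈ (((HI (I : Set (Fin n))).map MulAut.conj : Subgroup
        (MulAut (FreeGroup (Fin n)))) : Set (MulAut (FreeGroup (Fin n)))),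
        ∃ y, g = y * x * y⁻¹} ↔
      ∃ w, (∃ H, IsFreeFactor n r H ∧ w ∈ H) ∧ α = MulAut.conj w := by
    intro α
    constructor
    · rintro ⟨_, ⟨v, hv, rfl⟩, β, rfl⟩
      exact ⟨β v, (mem_factor_iff hI _).2 ⟨β, v, hv, rfl⟩, conj_mul β v⟩
    · rintro ⟨w, hw, rfl⟩
      obtain ⟨β, v, hv, rfl⟩ := (mem_factor_iff hI _).1 hw
      exact ⟨_, ⟨v, hv, rfl⟩, β, (conj_mul β v).symm⟩
  ext α
  constructor
  · rintro ⟨_, ⟨l, hl, h, rfl⟩, rfl⟩
    refine ⟨l.map MulAut.conj, by simpa using hl, ?_, ?_⟩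
    · intro x hx
      obtain ⟨w, hw, rfl⟩ := List.mem_map.1 hx
      exact (h3 _).2 ⟨w, h w hw, rfl⟩
    · rw [map_list_prod]
  · rintro ⟨l, hl, h, rfl⟩
    have h4 : ∃ l' : List (FreeGroup (Fin n)), l'.length = l.length ∧
        (∀ x ∈ l', ∃ H, IsFreeFactor n r H ∧ x ∈ H) ∧ l.prod = MulAut.conj l'.prod := by
      clear hl
      induction l with
      | nil => exact ⟨[], rfl, by simp, by simp⟩
      | cons x l ih =>
        obtain ⟨l', h5, h6, h7⟩ := ih fun y hy => h y (List.mem_cons_of_mem _ hy)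
        obtain ⟨w, hw, rfl⟩ := (h3 _).1 (h x (by simp))
        refine ⟨w :: l', by simp [h5], ?_, by simp [h7]⟩
        intro y hy
        rcases List.mem_cons.1 hy with rfl | hy
        · exact hw
        · exact h6 y hy
    obtain ⟨l', h5, h6, h7⟩ := h4
    exact ⟨_, ⟨l', h5.trans hl, h6, rfl⟩, h7⟩

end Pool.Agent.Results.MP_85729b_al.FreeFactors
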